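import Pool.Agent.Results.MP_88afc7_mp.SeventhPower

/-!
# Scaling and reindexing of the Thomas-Fermi energy
-/

set_option autoImplicit false

open MeasureTheory Set Filter Topology Metric
open scoped Pointwise

namespace Pool.Agent.W99.SA

open Pool.Agent.Results.MP_88afc7_mp.SeventhPower

/-- the scaled density `λ⁶ ρ(λ x)` -/
noncomputable def sc (l : ℝ) (ρ : R3 → ℝ) : R3 → ℝ := fun x => l ^ 6 * ρ (l • x)

lemma fin3 : Module.finrank ℝ R3 = 3 := by simp [R3]

lemma int_sc {l : ℝ} (hl : 0 < l) (g : R3 → ℝ) : ∫ x, g (l • x) = (l ^ 3)⁻¹ * ∫ x, g x := by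
  rw [Measure.integral_comp_smul, fin3, smul_eq_mul, abs_of_nonneg (by positivity)]

lemma int_sc' {l : ℝ} (hl : 0 < l) (g F : R3 → ℝ) (c : ℝ) (h : ∀ x, F x = c * g (l • x)) :
    ∫ x, F x = c * ((l ^ 3)⁻¹ * ∫ x, g x) := by
  rw [← int_sc hl g, ← integral_const_mul]
  exact integral_congr_ae (Filter.Eventually.of_forall h)

lemma sc_dens {l : ℝ} (hl : 0 < l) {ρ : R3 → ℝ} (h : Density ρ) : Density (sc l ρ) := by
  refine ⟨fun x => mul_nonneg (by positivity) (h.nonneg _), ?_, ?_⟩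
  · exact (h.integrable.comp_smul hl.ne').const_mul _
  · have h1 := (h.integrable_rpow.comp_smul hl.ne').const_mul ((l ^ 6) ^ (5/3 : ℝ))
    refine h1.congr (Filter.Eventually.of_forall fun x => ?_)
    unfold sc
    simp only
    rw [Real.mul_rpow (by positivity) (h.nonneg _)]

lemma sc_mass {l : ℝ} (hl : 0 < l) (ρ : R3 → ℝ) : ∫ x, sc l ρ x = l ^ 3 * ∫ x, ρ x := by
  unfold sc
  rw [integral_const_mul, int_sc hl]
  field_simp

lemma sc_tf {ι : Type} [Fintype ι] [DecidableEq ι] {l : ℝ} (hl : 0 < l) (z : ι → ℝ)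
    (R : ι → R3) {ρ : R3 → ℝ} (h : Density ρ) :
    tf 1 (fun i => l ^ 3 * z i) R (sc l ρ) = l ^ 7 * tf 1 z (fun i => l • R i) ρ := by
  unfold tf
  have hl0 : l ≠ 0 := hl.ne'
  have e1 : ∫ x, sc l ρ x ^ (5/3 : ℝ) = l ^ 7 * ∫ x, ρ x ^ (5/3 : ℝ) := by
    have h1 : ∀ x, sc l ρ x ^ (5/3 : ℝ) = l ^ 10 * (fun y => ρ y ^ (5/3 : ℝ)) (l • x) := by
      intro x
      unfold sc
      simp only
      rw [Real.mul_rpow (by positivity) (h.nonneg _)]
      congr 1
      rw [← Real.rpow_natCast l 6, ← Real.rpow_mul hl.le]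
      norm_num
    rw [int_sc' hl (fun y => ρ y ^ (5/3 : ℝ)) _ _ h1]
    field_simp
  have e2 : ∫ x, (∑ j, l ^ 3 * z j / ‖x - R j‖) * sc l ρ x
      = l ^ 7 * ∫ x, (∑ j, z j / ‖x - l • R j‖) * ρ x := by
    have h1 : ∀ x, (∑ j, l ^ 3 * z j / ‖x - R j‖) * sc l ρ x
        = l ^ 10 * (fun y => (∑ j, z j / ‖y - l • R j‖) * ρ y) (l • x) := by
      intro x
      unfold sc
      simp only
      have h2 : ∀ j, z j / ‖l • x - l • R j‖ = l⁻¹ * (z j / ‖x - R j‖) := by
        intro j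
        rw [← smul_sub, norm_smul, Real.norm_of_nonneg hl.le]
        field_simp
      simp only [h2, ← Finset.mul_sum]
      have h3 : ∑ j, l ^ 3 * z j / ‖x - R j‖ = l ^ 3 * ∑ j, z j / ‖x - R j‖ := by
        rw [Finset.mul_sum]
        exact Finset.sum_congr rfl fun j _ => by ring
      rw [h3]
      field_simp
    rw [int_sc' hl (fun y => (∑ j, z j / ‖y - l • R j‖) * ρ y) _ _ h1]
    field_simp
  have e3 : ∫ x, ∫ y, sc l ρ x * sc l ρ y / ‖x - y‖ = l ^ 7 * ∫ x, ∫ y, ρ x * ρ y / ‖x - y‖ := by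
    have h1 : ∀ x, ∫ y, sc l ρ x * sc l ρ y / ‖x - y‖
        = l ^ 10 * (fun x' => ∫ y', ρ x' * ρ y' / ‖x' - y'‖) (l • x) := by
      intro x
      have h2 : ∀ y, sc l ρ x * sc l ρ y / ‖x - y‖
          = l ^ 13 * (fun y' => ρ (l • x) * ρ y' / ‖l • x - y'‖) (l • y) := by
        intro y
        unfold sc
        simp only
        rw [← smul_sub, norm_smul, Real.norm_of_nonneg hl.le]
        field_simp
      rw [int_sc' hl (fun y' => ρ (l • x) * ρ y' / ‖l • x - y'‖) _ _ h2]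
      field_simp
    rw [int_sc' hl (fun x' => ∫ y', ρ x' * ρ y' / ‖x' - y'‖) _ _ h1]
    field_simp
  have e4 : ∑ i, ∑ j ∈ Finset.univ.erase i, l ^ 3 * z i * (l ^ 3 * z j) / ‖R i - R j‖
      = l ^ 7 * ∑ i, ∑ j ∈ Finset.univ.erase i, z i * z j / ‖l • R i - l • R j‖ := by
    rw [Finset.mul_sum]
    refine Finset.sum_congr rfl fun i _ => ?_
    rw [Finset.mul_sum]
    refine Finset.sum_congr rfl fun j _ => ?_
    rw [← smul_sub, norm_smul, Real.norm_of_nonneg hl.le]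
    field_simp
  rw [e1, e2, e3, e4]
  ring

lemma energies_sub {ι : Type} [Fintype ι] [DecidableEq ι] {l : ℝ} (hl : 0 < l) (z : ι → ℝ)
    (R : ι → R3) {a : ℝ} (ha : a ∈ energies 1 z (fun i => l • R i)) :
    l ^ 7 * a ∈ energies 1 (fun i => l ^ 3 * z i) R := by
  obtain ⟨ρ, h1, h2, h3⟩ := ha
  refine ⟨sc l ρ, sc_dens hl h1, ?_, ?_⟩
  · rw [sc_mass hl, h2, Finset.mul_sum]
  · rw [sc_tf hl z R h1, h3]

lemma E_scale {ι : Type} [Fintype ι] [DecidableEq ι] {l : ℝ} (hl : 0 < l) (z : ι → ℝ)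
    (R : ι → R3) : E 1 (fun i => l ^ 3 * z i) R = l ^ 7 * E 1 z (fun i => l • R i) := by
  unfold E
  have h : energies 1 (fun i => l ^ 3 * z i) R = (l ^ 7) • energies 1 z (fun i => l • R i) := by
    ext a
    constructor
    · intro ha
      rw [Set.mem_smul_set]
      refine ⟨(l ^ 7)⁻¹ * a, ?_, ?_⟩
      · have hli : 0 < l⁻¹ := inv_pos.mpr hl
        have e0 : (fun i => l⁻¹ • (l • R i)) = R := by
          funext i; rw [smul_smul, inv_mul_cancel₀ hl.ne', one_smul]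
        have h1 : a ∈ energies 1 (fun i => l ^ 3 * z i) (fun i => l⁻¹ • (l • R i)) := by
          rw [e0]; exact ha
        have h2 := energies_sub hli (fun i => l ^ 3 * z i) (fun i => l • R i) h1
        have e1 : (fun i => l⁻¹ ^ 3 * (l ^ 3 * z i)) = z := by
          funext i; field_simp
        rw [e1, inv_pow] at h2
        exact h2
      · rw [smul_eq_mul, mul_inv_cancel_left₀ (by positivity)]
    · intro ha
      rw [Set.mem_smul_set] at ha
      obtain ⟨b, hb, rfl⟩ := ha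
      exact energies_sub hl z R hb
  rw [h, Real.sInf_smul_of_nonneg (by positivity), smul_eq_mul]

lemma E_reindex {ι κ : Type} [Fintype ι] [DecidableEq ι] [Fintype κ] [DecidableEq κ]
    (e : ι ≃ κ) (z : κ → ℝ) (R : κ → R3) :
    E 1 (fun i => z (e i)) (fun i => R (e i)) = E 1 z R := by
  unfold E
  congr 1
  have hm : ∑ i, z (e i) = ∑ j, z j := Equiv.sum_comp e z
  have ht : ∀ ρ, tf 1 (fun i => z (e i)) (fun i => R (e i)) ρ = tf 1 z R ρ := by
    intro ρ
    unfold tf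
    have e2 : ∀ x, ∑ i, z (e i) / ‖x - R (e i)‖ = ∑ j, z j / ‖x - R j‖ := fun x =>
      Equiv.sum_comp e (fun j => z j / ‖x - R j‖)
    have e4 : ∑ i, ∑ j ∈ Finset.univ.erase i, z (e i) * z (e j) / ‖R (e i) - R (e j)‖
        = ∑ i, ∑ j ∈ Finset.univ.erase i, z i * z j / ‖R i - R j‖ := by
      rw [← Equiv.sum_comp e (fun i => ∑ j ∈ Finset.univ.erase i, z i * z j / ‖R i - R j‖)]
      refine Finset.sum_congr rfl fun i _ => ?_
      refine Finset.sum_nbij' (fun j => e j) (fun j => e.symm j) ?_ ?_ ?_ ?_ ?_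
      · intro j hj; simpa using hj
      · intro j hj
        simp only [Finset.mem_erase, Finset.mem_univ, and_true] at hj ⊢
        intro h; apply hj; rw [← h]; simp
      · intro j _; simp
      · intro j _; simp
      · intro j _; rfl
    simp only [e2, e4]
  unfold energies
  simp only [hm, ht]

end Pool.Agent.W99.SA
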